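import Pool.Agent.Helper80.AD.GoalsB

/-!
# Packet TORB of project AD (MP_6af536_nt): the orbit in the torus.
-/

set_option autoImplicit false

open MvPolynomial Filter Topology

noncomputable section

namespace Pool.Agent.Helper9.AD

open Pool.Agent.Helper80.HD Pool.Agent.Helper80.AD

/-- the monomial map of the matrix `M` -/
def mexp {R σ : Type} [Field R] [Fintype σ] (ξ : σ → R) (M : Matrix σ σ ℤ) (s : σ) : R := chr ξ (M s)

theorem chr_ne_zero {R σ : Type} [Field R] [Fintype σ] (ξ : σ → R) (h : ∀ s, ξ s ≠ 0) (w : σ → ℤ) :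
    chr ξ w ≠ 0 := by
  unfold chr
  exact Finset.prod_ne_zero_iff.2 fun s _ => zpow_ne_zero _ (h s)

theorem mexp_mul {R σ : Type} [Field R] [Fintype σ] (ξ : σ → R) (h : ∀ s, ξ s ≠ 0) (M M' : Matrix σ σ ℤ) :
    mexp ξ (M * M') = mexp (mexp ξ M') M := by
  funext s
  unfold mexp chr
  have h1 : ∀ t, ξ t ^ (M * M') s t = ∏ s', (ξ t ^ M' s' t) ^ M s s' := by
    intro t
    rw [Matrix.mul_apply]
    have h2 : ∀ (S : Finset σ), ξ t ^ (∑ s' ∈ S, M s s' * M' s' t) = ∏ s' ∈ S, (ξ t ^ M' s' t) ^ M s s' := by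
      intro S
      classical
      induction S using Finset.induction_on with
      | empty => simp
      | insert a S ha ih =>
        rw [Finset.sum_insert ha, Finset.prod_insert ha, zpow_add₀ (h t), ih, mul_comm (M s a), zpow_mul]
    exact h2 Finset.univ
  rw [Finset.prod_congr rfl fun t _ => h1 t, Finset.prod_comm]
  refine Finset.prod_congr rfl fun s' _ => ?_
  rw [Finset.prod_zpow]

theorem mexp_one {R σ : Type} [Field R] [Fintype σ] [DecidableEq σ] (ξ : σ → R) : mexp ξ 1 = ξ := by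
  funext s
  unfold mexp chr
  rw [Finset.prod_eq_single s]
  · simp
  · intro t _ ht
    rw [Matrix.one_apply_ne' ht, zpow_zero]
  · simp

theorem mexp_smul_one {R σ : Type} [Field R] [Fintype σ] [DecidableEq σ] (ξ : σ → R) (d : ℤ) (s : σ) :
    mexp ξ (d • (1 : Matrix σ σ ℤ)) s = ξ s ^ d := by
  unfold mexp chr
  rw [Finset.prod_eq_single s]
  · simp
  · intro t _ ht
    rw [Matrix.smul_apply, Matrix.one_apply_ne' ht, smul_zero, zpow_zero]
  · simp

/-- the pair `(x_n, c)` -/
theorem orbit_mexp {R : Type} [Field R] {N : ℕ} (A : Matrix (Fin (N + 1)) (Fin (N + 1)) ℤ) (c : Fin (N + 1) → R)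
    (x : ℕ → Fin (N + 1) → R) (hc : ∀ i, c i ≠ 0) (h0 : ∀ i, x 0 i ≠ 0)
    (hx : ∀ n i, x (n + 1) i = c i * ∏ j, x n j ^ A i j) (n : ℕ) :
    Sum.elim (x n) c = mexp (Sum.elim (x 0) c) (bl A ^ n) := by
  have hξ : ∀ s, Sum.elim (x 0) c s ≠ 0 := by
    rintro (i | i)
    · exact h0 i
    · exact hc i
  induction n with
  | zero => rw [pow_zero, mexp_one]
  | succ n ih =>
    rw [pow_succ', mexp_mul _ hξ, ← ih]
    funext s
    unfold mexp chr
    rcases s with i | i
    · rw [Fintype.prod_sum_type]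
      simp only [Sum.elim_inl, Sum.elim_inr, bl, Matrix.fromBlocks_apply₁₁, Matrix.fromBlocks_apply₁₂]
      rw [hx, mul_comm]
      congr 1
      rw [Finset.prod_eq_single i]
      · simp
      · intro t _ ht
        rw [Matrix.one_apply_ne' ht, zpow_zero]
      · simp
    · rw [Fintype.prod_sum_type]
      simp only [Sum.elim_inl, Sum.elim_inr, bl, Matrix.fromBlocks_apply₂₁, Matrix.fromBlocks_apply₂₂]
      have h1 : ∏ t, x n t ^ (0 : Matrix (Fin (N + 1)) (Fin (N + 1)) ℤ) i t = 1 :=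
        Finset.prod_eq_one fun t _ => by rw [Matrix.zero_apply, zpow_zero]
      have h2 : ∏ t, c t ^ (1 : Matrix (Fin (N + 1)) (Fin (N + 1)) ℤ) i t = c i := by
        rw [Finset.prod_eq_single i]
        · simp
        · intro t _ ht
          rw [Matrix.one_apply_ne' ht, zpow_zero]
        · simp
      rw [h1, h2, one_mul]

theorem orbit_ne_zero {R : Type} [Field R] {N : ℕ} (A : Matrix (Fin (N + 1)) (Fin (N + 1)) ℤ)
    (c : Fin (N + 1) → R)
    (x : ℕ → Fin (N + 1) → R) (hc : ∀ i, c i ≠ 0) (h0 : ∀ i, x 0 i ≠ 0)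
    (hx : ∀ n i, x (n + 1) i = c i * ∏ j, x n j ^ A i j) (n : ℕ) (i : Fin (N + 1)) : x n i ≠ 0 := by
  induction n generalizing i with
  | zero => exact h0 i
  | succ n ih =>
    rw [hx]
    exact mul_ne_zero (hc i) (Finset.prod_ne_zero_iff.2 fun s _ => zpow_ne_zero _ (ih s))

theorem isAlgebraic_of_zpow_mem {L : Type} [Field L] [Algebra L ℂ] (a : ℂ) (d : ℤ) (hd : d ≠ 0)
    (h : ∃ b : L, algebraMap L ℂ b = a ^ d) : IsAlgebraic L a := by
  obtain ⟨b, hb⟩ := h
  have h1 : IsAlgebraic L (a ^ d.natAbs) := by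
    rcases Int.natAbs_eq d with h2 | h2
    · rw [← zpow_natCast, ← h2, ← hb]
      exact isAlgebraic_algebraMap b
    · have h3 : a ^ d.natAbs = (algebraMap L ℂ b)⁻¹ := by
        rw [hb]
        conv_rhs => rw [h2]
        rw [zpow_neg, inv_inv, zpow_natCast]
      rw [h3]
      exact (isAlgebraic_algebraMap b).inv
  exact h1.of_pow (Int.natAbs_pos.2 hd)

theorem det_bl {N : ℕ} (A : Matrix (Fin (N + 1)) (Fin (N + 1)) ℤ) : (bl A).det = A.det := by
  unfold bl
  rw [Matrix.det_fromBlocks_zero₂₁, Matrix.det_one, mul_one]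

theorem torb : S_TORB := by
  intro K _ _ _ N A c x F hA hc h0 hx hF
  set cC : Fin (N + 1) → ℂ := fun i => algebraMap K ℂ (c i) with hcC
  have hc' : ∀ i, cC i ≠ 0 := fun i => by
    rw [hcC]
    simpa using hc i
  have hne : ∀ n i, x n i ≠ 0 := orbit_ne_zero A cC x hc' h0 hx
  have horb : ∀ n, Sum.elim (x n) cC = mexp (Sum.elim (x 0) cC) (bl A ^ n) := orbit_mexp A cC x hc' h0 hx
  have hxi : ∀ n i, x n i = chr (Sum.elim (x 0) cC) ((bl A ^ n) (Sum.inl i)) := fun n i =>
    congrFun (horb n) (Sum.inl i)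
  -- coordinates in a ratio field
  have hcoord : ∀ n i, x n i ∈ ratioField K (aff (x n)) := by
    intro n i
    refine IntermediateField.subset_adjoin K _ ⟨Fin.succ i, 0, ?_⟩
    simp [aff]
  have hx0 : ∀ i, x 0 i ∈ F := fun i => hF ▸ hcoord 0 i
  have hcF : ∀ (L : IntermediateField K ℂ) i, cC i ∈ L := fun L i => L.algebraMap_mem (c i)
  have hxF : ∀ n i, x n i ∈ F := by
    intro n i
    rw [hxi]
    unfold chr
    refine prod_mem fun s _ => zpow_mem ?_ _
    rcases s with j | j
    · exact hx0 j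
    · exact hcF F j
  have hratio : ∀ (L : IntermediateField K ℂ) (n : ℕ), (∀ i, x n i ∈ L) → ∀ j, aff (x n) j ∈ L := by
    intro L n hL j
    refine Fin.cases ?_ (fun i => ?_) j
    · simp [aff]
    · simpa [aff] using hL i
  have hle : ∀ n, ratioField K (aff (x n)) ≤ F := by
    intro n
    refine IntermediateField.adjoin_le_iff.2 ?_
    rintro a ⟨i, j, rfl⟩
    exact div_mem (hratio F n (hxF n) i) (hratio F n (hxF n) j)
  have halg : ∀ n, ∀ a ∈ F, IsAlgebraic (ratioField K (aff (x n))) a := by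
    intro n a ha
    set L := ratioField K (aff (x n)) with hL
    have hdet : (bl A ^ n).det ≠ 0 := by
      rw [Matrix.det_pow, det_bl]
      exact pow_ne_zero _ hA
    have hξ : ∀ s, Sum.elim (x 0) cC s ≠ 0 := by
      rintro (i | i)
      · exact h0 i
      · exact hc' i
    have hpow : ∀ s, Sum.elim (x 0) cC s ^ (bl A ^ n).det = mexp (Sum.elim (x n) cC) (bl A ^ n).adjugate s := by
      intro s
      rw [horb n, ← mexp_mul _ hξ, Matrix.adjugate_mul, mexp_smul_one]
    have hx0alg : ∀ i, IsAlgebraic L (x 0 i) := by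
      intro i
      refine isAlgebraic_of_zpow_mem _ _ hdet ⟨⟨x 0 i ^ (bl A ^ n).det, ?_⟩, rfl⟩
      have h1 := hpow (Sum.inl i)
      rw [Sum.elim_inl] at h1
      rw [h1]
      unfold mexp chr
      refine prod_mem fun s _ => zpow_mem ?_ _
      rcases s with j | j
      · exact hcoord n j
      · exact hcF L j
    have hsub : F ≤ (algebraicClosure L ℂ).restrictScalars K := by
      rw [hF]
      refine IntermediateField.adjoin_le_iff.2 ?_
      rintro b ⟨i, j, rfl⟩
      have hmem : ∀ j, aff (x 0) j ∈ (algebraicClosure L ℂ).restrictScalars K := by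
        refine hratio _ 0 fun i => ?_
        rw [IntermediateField.mem_restrictScalars]
        exact mem_algebraicClosure_iff'.2 (hx0alg i).isIntegral
      exact div_mem (hmem i) (hmem j)
    have h2 := hsub ha
    rw [IntermediateField.mem_restrictScalars] at h2
    exact (mem_algebraicClosure_iff'.1 h2).isAlgebraic
  let Xv : ℕ → Fin (N + 2) → F := fun n j => ⟨aff (x n) j, hratio F n (hxF n) j⟩
  have hcv : ∀ n, cv (Xv n) = aff (x n) := fun n => rfl
  have hXv0 : ∀ n, Xv n 0 = 1 := fun n => Subtype.ext (by simp [Xv, aff])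
  refine ⟨fun n => ⟨Xv n, ⟨?_, hle n, halg n⟩, 0, hXv0 n⟩, hcv, hXv0, fun n j => ?_, fun n i => ?_⟩
  · intro h
    have h1 := congrFun h 0
    rw [hcv] at h1
    simp [aff] at h1
  · intro h
    have h1 : aff (x n) j = 0 := congrArg Subtype.val h
    revert h1
    refine Fin.cases ?_ (fun i => ?_) j
    · simp [aff]
    · intro h1
      exact hne n i (by simpa [aff] using h1)
  · refine Subtype.ext ?_
    have h1 : ((Xv n (Fin.succ i) : F) : ℂ) = x n i := by simp [Xv, aff]
    rw [h1, hxi]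
    unfold chr
    have h2 : ∀ s, ((tor (⟨Xv 0, ⟨by
        intro h
        have h1 := congrFun h 0
        rw [hcv] at h1
        simp [aff] at h1, hle 0, halg 0⟩, 0, hXv0 0⟩ : BV F (N + 1)) c s : F) : ℂ) = Sum.elim (x 0) cC s := by
      rintro (j | j)
      · simp [tor, Xv, aff]
      · rfl
    simp only [← h2]
    push_cast
    rfl

end Pool.Agent.Helper9.AD
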